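import Pool.Agent.Helper45.LGB.St2

set_option autoImplicit false

/-!
Module LFG of the project LGB: from nilpotent to locally finite groups.
-/

namespace Pool.Agent.Helper4.LGB

open Pool.Agent.Helper45.LGB Pool.Agent.Helper83.RB

open scoped commutatorElement

private lemma closure_fin {G : Type} [Group G] (X : Set G) (g : G)
    (hg : g ∈ Subgroup.closure X) :
    ∃ X₀ : Finset G, (X₀ : Set G) ⊆ X ∧ g ∈ Subgroup.closure (X₀ : Set G) := by
  classical
  induction hg using Subgroup.closure_induction with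
  | mem x hx => exact ⟨{x}, by simpa using hx, Subgroup.subset_closure (by simp)⟩
  | one => exact ⟨∅, by simp, one_mem _⟩
  | mul x y _ _ hx hy =>
    obtain ⟨A, hA, hxA⟩ := hx
    obtain ⟨B, hB, hyB⟩ := hy
    refine ⟨A ∪ B, by simp [hA, hB], ?_⟩
    exact mul_mem (Subgroup.closure_mono (by simp) hxA) (Subgroup.closure_mono (by simp) hyB)
  | inv x _ hx =>
    obtain ⟨A, hA, hxA⟩ := hx
    exact ⟨A, hA, inv_mem hxA⟩

private lemma lcs_fin {G : Type} [Group G] (X : Set G) (hX : Subgroup.closure X = ⊤) (c : ℕ) :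
    ∀ g ∈ (⊤ : Subgroup G).lowerCentralSeries c,
      ∃ X₀ : Finset G, (X₀ : Set G) ⊆ X ∧
        g ∈ (Subgroup.closure (X₀ : Set G)).lowerCentralSeries c := by
  classical
  have mono : ∀ (A B : Finset G) (n : ℕ), A ⊆ B →
      (Subgroup.closure (A : Set G)).lowerCentralSeries n ≤
        (Subgroup.closure (B : Set G)).lowerCentralSeries n := by
    intro A B n h
    exact Subgroup.lowerCentralSeries_mono n (Subgroup.closure_mono (by exact_mod_cast h))
  induction c with
  | zero =>
    intro g _
    exact closure_fin X g (by rw [hX]; trivial)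
  | succ n ih =>
    intro g hg
    rw [Subgroup.mem_lowerCentralSeries_succ_iff] at hg
    induction hg using Subgroup.closure_induction with
    | mem x hx =>
      obtain ⟨a, ha, b, _, rfl⟩ := hx
      obtain ⟨A, hA, haA⟩ := ih a ha
      obtain ⟨B, hB, hbB⟩ := closure_fin X b (by rw [hX]; trivial)
      refine ⟨A ∪ B, by simp [hA, hB], ?_⟩
      rw [Subgroup.lowerCentralSeries_succ]
      exact Subgroup.commutator_mem_commutator (mono A (A ∪ B) n Finset.subset_union_left haA)
        (Subgroup.closure_mono (by simp) hbB)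
    | one => exact ⟨∅, by simp, one_mem _⟩
    | mul x y _ _ hx hy =>
      obtain ⟨A, hA, hxA⟩ := hx
      obtain ⟨B, hB, hyB⟩ := hy
      refine ⟨A ∪ B, by simp [hA, hB], ?_⟩
      exact mul_mem (mono A (A ∪ B) (n + 1) Finset.subset_union_left hxA)
        (mono B (A ∪ B) (n + 1) Finset.subset_union_right hyB)
    | inv x _ hx =>
      obtain ⟨A, hA, hxA⟩ := hx
      exact ⟨A, hA, inv_mem hxA⟩

private lemma ball_map {G : Type} [Group G] (H : Subgroup G) (X : Set G) (X' : Set H)
    (hXX : ∀ x ∈ X', (x : G) ∈ X) (x : H) (n : ℕ) :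
    ∀ y ∈ Ball X' x n, (y : G) ∈ Ball X (x : G) n := by
  induction n with
  | zero =>
    intro y hy
    have hy' : y = x := hy
    subst hy'
    exact rfl
  | succ n ih =>
    rintro y ⟨z, hz, hzy⟩
    refine ⟨(z : G), ih z hz, ?_⟩
    rcases hzy with h | ⟨h1, h2⟩
    · exact Or.inl (by rw [h])
    · refine Or.inr ⟨hXX y h1, fun h => h2 (Subtype.ext ?_)⟩
      simpa using h

theorem hLFG : StLFG := by
  intro p R _ hN G _ hp hfin X hX c hc
  rw [eq_bot_iff]
  intro g hg
  obtain ⟨X₀, hX₀, hgX⟩ := lcs_fin X hX c g hg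
  set H : Subgroup G := Subgroup.closure (X₀ : Set G) with hH
  have : Finite H := hfin X₀
  have hexp : ∀ h : H, h ^ p = 1 := fun h => Subtype.ext (by simpa using hp (h : G))
  have hpg : IsPGroup p H := fun h => ⟨1, by rw [pow_one]; exact hexp h⟩
  have : Group.IsNilpotent H := hpg.isNilpotent
  obtain ⟨N, hNN⟩ := Subgroup.nilpotent_iff_lowerCentralSeries.1
    (inferInstance : Group.IsNilpotent H)
  have hgen : Subgroup.closure ({x : H | (x : G) ∈ (X₀ : Set G)}) = ⊤ :=
    Subgroup.closure_closure_coe_preimage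
  have key : (⊤ : Subgroup H).lowerCentralSeries c = ⊥ := by
    refine hN H hexp {x : H | (x : G) ∈ (X₀ : Set G)} hgen ⟨N, hNN⟩ c ?_
    intro x hx
    rw [← Subgroup.map_eq_bot_iff_of_injective _ H.subtype_injective,
      Subgroup.map_lowerCentralSeries, eq_bot_iff, ← hc (x : G) (hX₀ hx)]
    refine Subgroup.lowerCentralSeries_mono c ?_
    rw [Subgroup.map_le_iff_le_comap, Subgroup.closure_le]
    intro y hy
    exact Subgroup.subset_closure
      (ball_map H X {x : H | (x : G) ∈ (X₀ : Set G)} (fun z hz => hX₀ hz) x R y hy)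
  have h2 : H.lowerCentralSeries c = ⊥ := by
    rw [← Subgroup.top_subtype_lowerCentralSeries, key, Subgroup.map_bot]
  rw [h2] at hgX
  exact hgX

end Pool.Agent.Helper4.LGB
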